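import Pool.Agent.Q109.D3.Two

/-!
# Diameter-3 graphs excluding two cycles sharing a vertex can have bounded treedepth

`Q109.D3.glued` is the graph on `Fin 29` consisting of the cycles `0, 1, ..., 11` (length 12)
and `0, 12, ..., 28` (length 18), which share exactly the vertex `0`.
`Q109.D3.treedepth G` is the least height of a rooted forest on `V(G)`, given by a parent
function, such that all edges of `G` join vertices in ancestor-descendant relation.
-/

namespace Pool.Agent.Results.MP_fe499a_co.BoundedTwoCycles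

open Q109.D3

/-- a subgraph which is a cycle -/
def IsCycleSubgraph {W : Type} (F : SimpleGraph W) (H : F.Subgraph) : Prop :=
  ∃ n, 3 ≤ n ∧ Nonempty (SimpleGraph.cycleGraph n ≃g H.coe)

/-- `F` contains at least two distinct cycles as subgraphs -/
def HasTwoCycles {W : Type} (F : SimpleGraph W) : Prop :=
  ∃ H₁ H₂ : F.Subgraph, H₁ ≠ H₂ ∧ IsCycleSubgraph F H₁ ∧ IsCycleSubgraph F H₂

/-- `G` is an `F`-subgraph-free graph of diameter at most three -/
def InClass {W : Type} (F : SimpleGraph W) {V : Type} (G : SimpleGraph V) : Prop :=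
  F.Free G ∧ G.Connected ∧ ∀ u v, G.dist u v ≤ 3

theorem glued_adj12 : ∀ i j : Fin 12, (SimpleGraph.cycleGraph 12).Adj i j →
    glued.Adj (Fin.castLE (by norm_num) i) (Fin.castLE (by norm_num) j) := by
  unfold glued
  simp only [SimpleGraph.cycleGraph_adj', SimpleGraph.fromRel_adj]
  decide +kernel

/-- the vertices of the second cycle -/
def second (i : Fin 18) : Fin 29 := if i.val = 0 then 0 else ⟨i.val + 11, by omega⟩

theorem glued_adj18 : ∀ i j : Fin 18, (SimpleGraph.cycleGraph 18).Adj i j →
    glued.Adj (second i) (second j) := by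
  unfold glued second
  simp only [SimpleGraph.cycleGraph_adj', SimpleGraph.fromRel_adj]
  decide +kernel

theorem second_inj : Function.Injective second := by
  unfold second
  decide +kernel

theorem glued_two : HasTwoCycles glued := by
  let c₁ : SimpleGraph.Copy (SimpleGraph.cycleGraph 12) glued :=
    ⟨⟨fun i => Fin.castLE (by norm_num) i, fun {i j} h => glued_adj12 i j h⟩,
      Fin.castLE_injective (by norm_num)⟩
  let c₂ : SimpleGraph.Copy (SimpleGraph.cycleGraph 18) glued :=
    ⟨⟨second, fun {i j} h => glued_adj18 i j h⟩, second_inj⟩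
  refine ⟨c₁.toSubgraph, c₂.toSubgraph, ?_, ⟨12, by norm_num, ⟨c₁.isoToSubgraph⟩⟩,
    ⟨18, by norm_num, ⟨c₂.isoToSubgraph⟩⟩⟩
  intro h
  have e1 := Nat.card_congr c₁.isoToSubgraph.toEquiv
  have e2 := Nat.card_congr c₂.isoToSubgraph.toEquiv
  rw [Nat.card_eq_fintype_card, Fintype.card_fin] at e1 e2
  rw [h, ← e2] at e1
  norm_num at e1

/-- The graph obtained from cycles of lengths 12 and 18 by identifying one vertex has at least
two cycles, yet the graphs of diameter at most three not containing it as a subgraph have bounded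
treedepth.  Consequently the statement of Q1 is false. -/
theorem result :
    (HasTwoCycles glued ∧ ∃ k : ℕ, ∀ (V : Type) [Fintype V] (G : SimpleGraph V),
      InClass glued G → treedepth G ≤ k) ∧
    ¬ ∀ (m : ℕ) (F : SimpleGraph (Fin m)), HasTwoCycles F → ∀ k : ℕ,
      ∃ (V : Type) (_ : Fintype V) (G : SimpleGraph V), InClass F G ∧ k < treedepth G := by
  have h : ∃ k : ℕ, ∀ (V : Type) [Fintype V] (G : SimpleGraph V),
      InClass glued G → treedepth G ≤ k := by
    obtain ⟨c, hc⟩ := glued_bounded
    refine ⟨c, ?_⟩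
    intro V _ G hG
    exact Nat.sInf_le (hc V G hG.1 (diamThree_of_dist hG.2.1 hG.2.2))
  refine ⟨⟨glued_two, h⟩, ?_⟩
  intro hall
  obtain ⟨k, hk⟩ := h
  obtain ⟨V, hV, G, hG, hlt⟩ := hall 29 glued glued_two k
  have := hk V G hG
  omega

end Pool.Agent.Results.MP_fe499a_co.BoundedTwoCycles
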